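import Pool.Agent.W513.Dens2

/-!
# Negative curves of unbounded genus on the blow-up of a surface at a general point

The surface `Y` is the product of the Fermat quartic `C` and the elliptic curve
`E : y² + x⁴ + 1 = 0`. Let `f : C → E` be the double cover `(x, w) ↦ (x, w²)`. The curves are
the strict transforms of `{(c, t) : f c = ψ t}`, where the endomorphism `ψ` of the curve `E` is a
translation, followed by an iterate of the complex multiplication by `1 + i`, followed by a
translation.
-/

set_option autoImplicit false

open AlgebraicGeometry CategoryTheory Limits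

namespace Pool.Agent.Results.MP_008bba_ag.UnboundedGenus

open Pool.Agent.W513
open Pool.Agent.Helper198.CurveFamily (IsSmoothProjectiveSurface)
open Pool.Agent.H666R3.NG (HasGenus)

/-- Over every algebraically closed field `k` of characteristic zero there are a smooth projective
surface `Y` and a nonempty open subset `U` of `Y` such that for every closed point `y` in `U`, the
blow-up `σ : X ⟶ Y` of `Y` at `y` and every natural number `N` there is an integral curve `C` in
`X` which is not exceptional (its generic point is not mapped to `y`), has
self-intersection `-1`, and has arithmetic genus at least `N`. -/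
theorem result (k : Type) [Field k] [IsAlgClosed k] [CharZero k] :
    ∃ (Y : Scheme.{0}) (sY : Y ⟶ Spec (.of k)), IsSmoothProjectiveSurface sY ∧
      ∃ U : Y.Opens, (U : Set Y).Nonempty ∧ ∀ y ∈ U, IsClosed ({y} : Set Y) →
        ∀ (X : Scheme.{0}) (σ : X ⟶ Y), IsBlowUpAt σ y → ∀ N : ℕ,
          ∃ (C : Scheme.{0}) (_ : IsIntegral C) (ι : C ⟶ X), IsIntegralCurve ι ∧
            σ (ι (genericPoint C)) ≠ y ∧ HasSelfIntersection ι (-1) ∧
            ∃ p : ℕ, N ≤ p ∧ HasGenus (ι ≫ σ ≫ sY) p :=
  ⟨YY k, Pool.Agent.W513.sY k, surface_YY k, U0 k, nonempty_U0, main2⟩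

end Pool.Agent.Results.MP_008bba_ag.UnboundedGenus
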